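import Pool.Agent.N566.VV.Defs
import Pool.Agent.H105R3.JSanCurl

/-!
Project VV (helper566), part 7: curls, and all local identities of the coloured Jones data.
-/

set_option autoImplicit false

namespace Pool.Agent.N364.VV

open Pool.Agent.N566.VV
open Pool.Agent.H550R3.Jones (br brf Adm crossP crossN ptr)
open Finset

/-- the ratio of opposite coefficients of the invariant vector -/
theorem kap_rev (N : ℕ) (v : ℂ) (hN : Odd N) (hv : v ≠ 0) (x : Fin N) :
    kap N v x = v ^ ((N : ℤ) - 1 - 2 * ((x : ℕ) : ℤ)) * kap N v (Fin.rev x : Fin N) := by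
  obtain ⟨j, hj⟩ : ∃ j : ℕ, j = (x : ℕ) := ⟨_, rfl⟩
  obtain ⟨j', hj'⟩ : ∃ j' : ℕ, j' = ((Fin.rev x : Fin N) : ℕ) := ⟨_, rfl⟩
  have hjj : N = j + j' + 1 := by
    rw [hj', Fin.val_rev, hj]
    have := x.2
    omega
  rw [← hj, ← hj']
  unfold kap
  have e1 : N - 1 - j = j' := by omega
  have e2 : N - 1 - j' = j := by omega
  have e3 : (-1 : ℂ) ^ j = (-1) ^ j' := by
    obtain ⟨m, hm⟩ := hN
    have h1 : (-1 : ℂ) ^ (j + j') = 1 := by
      have : Even (j + j') := ⟨m, by omega⟩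
      exact this.neg_one_pow
    have h2 : (-1 : ℂ) ^ j' * (-1) ^ j' = 1 := by
      rw [← pow_add]
      exact (Even.neg_one_pow ⟨j', rfl⟩)
    calc (-1 : ℂ) ^ j = (-1) ^ j * ((-1) ^ j' * (-1) ^ j') := by rw [h2, mul_one]
      _ = ((-1) ^ (j + j')) * (-1) ^ j' := by rw [pow_add]; ring
      _ = (-1) ^ j' := by rw [h1, one_mul]
  have e4 : v ^ ((j : ℤ) * ((N : ℤ) - 2 - j)) =
      v ^ ((N : ℤ) - 1 - 2 * (j : ℤ)) * v ^ ((j' : ℤ) * ((N : ℤ) - 2 - j')) := by
    rw [← zpow_add₀ hv]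
    congr 1
    rw [hjj]
    push_cast
    ring
  rw [e1, e2, e3, e4]
  ring

theorem s_ok (hA : S_OKA) (hB : S_OKB) : Pool.Agent.N566.VV.S_OK := by
  intro N v hN hv
  obtain ⟨a1, a2, a3, a4, a5, a6⟩ := hA N v hN hv
  obtain ⟨b1, b2, b3, b4⟩ := hB N v hN hv
  obtain ⟨cP, cN⟩ := Pool.Agent.H105R3.JSan.taskSanCurl N v hv
  have hv0 : v ≠ 0 := hv.1
  have hc : ∀ x, (datJ N v).c x ≠ 0 := fun x => left_ne_zero_of_mul_eq_one (a2 x)
  have hd : ∀ x, (datJ N v).d x ≠ 0 := by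
    intro x
    have := right_ne_zero_of_mul_eq_one (a2 (Fin.rev x))
    rwa [a1] at this
  have hk : ∀ x : Fin N, kap N v x ≠ 0 := hd
  have hcr : ∀ x : Fin N, (datJ N v).c x =
      v ^ ((N : ℤ) - 1 - 2 * ((x : ℕ) : ℤ)) * (datJ N v).c (Fin.rev x) := by
    intro x
    show (kap N v (Fin.rev x : Fin N))⁻¹ =
      v ^ ((N : ℤ) - 1 - 2 * ((x : ℕ) : ℤ)) * (kap N v (Fin.rev (Fin.rev x) : Fin N))⁻¹
    rw [a1, eq_mul_inv_iff_mul_eq₀ (hk x), inv_mul_eq_iff_eq_mul₀ (hk _), mul_comm]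
    exact kap_rev N v hN hv0 x
  have hdr : ∀ x : Fin N, (datJ N v).d x =
      v ^ ((N : ℤ) - 1 - 2 * ((x : ℕ) : ℤ)) * (datJ N v).d (Fin.rev x) :=
    fun x => kap_rev N v hN hv0 x
  -- partial traces
  have pP : ∀ i j : Fin N, ∑ x : Fin N, v ^ ((N : ℤ) - 1 - 2 * ((x : ℕ) : ℤ)) *
      (datJ N v).P (i, x) (j, x) = if i = j then (datJ N v).k' else 0 := by
    intro i j
    have h := congrFun (congrFun cP i) j
    unfold ptr at h
    rw [Matrix.one_apply] at h
    have e : ∀ x : Fin N, v ^ ((N : ℤ) - 1 - 2 * ((x : ℕ) : ℤ)) * (datJ N v).P (i, x) (j, x) =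
        v ^ fr N * (v ^ ((N : ℤ) - 1 - 2 * ((x : ℕ) : ℤ)) * crossP N v (i, x) (j, x)) := by
      intro x
      show _ * (v ^ fr N • crossP N v) (i, x) (j, x) = _
      rw [Matrix.smul_apply, smul_eq_mul]
      ring
    rw [Finset.sum_congr rfl fun x _ => e x, ← Finset.mul_sum, h]
    show _ = if i = j then v ^ fr N else 0
    split_ifs <;> simp
  have pN : ∀ i j : Fin N, ∑ x : Fin N, v ^ ((N : ℤ) - 1 - 2 * ((x : ℕ) : ℤ)) *
      (datJ N v).Q (i, x) (j, x) = if i = j then (datJ N v).k else 0 := by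
    intro i j
    have h := congrFun (congrFun cN i) j
    unfold ptr at h
    rw [Matrix.one_apply] at h
    have e : ∀ x : Fin N, v ^ ((N : ℤ) - 1 - 2 * ((x : ℕ) : ℤ)) * (datJ N v).Q (i, x) (j, x) =
        v ^ (-fr N) * (v ^ ((N : ℤ) - 1 - 2 * ((x : ℕ) : ℤ)) * crossN N v (i, x) (j, x)) := by
      intro x
      show _ * (v ^ (-fr N) • crossN N v) (i, x) (j, x) = _
      rw [Matrix.smul_apply, smul_eq_mul]
      ring
    rw [Finset.sum_congr rfl fun x _ => e x, ← Finset.mul_sum, h]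
    show _ = if i = j then v ^ (-fr N) else 0
    split_ifs <;> simp
  refine ⟨a1, a2, a3, a4, a5, a6, b1, b2, b3, b4, ?_, ?_, ?_, ?_⟩
  · intro y z
    have e : ∀ x : Fin N, (datJ N v).c x * (datJ N v).P (x, (datJ N v).rev x) (y, z) =
        (datJ N v).c y * (v ^ ((N : ℤ) - 1 - 2 * ((x : ℕ) : ℤ)) *
          (datJ N v).Q (Fin.rev y, x) (z, x)) := by
      intro x
      have h := b2 x y z x
      show (datJ N v).c x * (datJ N v).P (x, Fin.rev x) (y, z) = _
      rw [hcr x, mul_assoc, ← h]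
      ring
    rw [Finset.sum_congr rfl fun x _ => e x, ← Finset.mul_sum, pN]
    show _ = if z = Fin.rev y then (datJ N v).k * (datJ N v).c y else 0
    by_cases hz : z = Fin.rev y
    · rw [if_pos hz, if_pos hz.symm, mul_comm]
    · rw [if_neg hz, if_neg (Ne.symm hz), mul_zero]
  · intro y z
    have e : ∀ x : Fin N, (datJ N v).c x * (datJ N v).Q (x, (datJ N v).rev x) (y, z) =
        (datJ N v).c y * (v ^ ((N : ℤ) - 1 - 2 * ((x : ℕ) : ℤ)) *
          (datJ N v).P (Fin.rev y, x) (z, x)) := by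
      intro x
      have h := b1 x y z x
      show (datJ N v).c x * (datJ N v).Q (x, Fin.rev x) (y, z) = _
      rw [hcr x, mul_assoc, ← h]
      ring
    rw [Finset.sum_congr rfl fun x _ => e x, ← Finset.mul_sum, pP]
    show _ = if z = Fin.rev y then (datJ N v).k' * (datJ N v).c y else 0
    by_cases hz : z = Fin.rev y
    · rw [if_pos hz, if_pos hz.symm, mul_comm]
    · rw [if_neg hz, if_neg (Ne.symm hz), mul_zero]
  · intro y z
    have e : ∀ x : Fin N, (datJ N v).P (y, z) (x, (datJ N v).rev x) * (datJ N v).d x =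
        (datJ N v).d y * (v ^ ((N : ℤ) - 1 - 2 * ((x : ℕ) : ℤ)) *
          (datJ N v).Q (z, x) (Fin.rev y, x)) := by
      intro x
      have h := b4 y z x x
      show (datJ N v).P (y, z) (x, Fin.rev x) * (datJ N v).d x = _
      rw [hdr x, mul_comm, mul_assoc, ← h]
      ring
    rw [Finset.sum_congr rfl fun x _ => e x, ← Finset.mul_sum, pN]
    show _ = if z = Fin.rev y then (datJ N v).k * (datJ N v).d y else 0
    by_cases hz : z = Fin.rev y
    · rw [if_pos hz, if_pos hz, mul_comm]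
    · rw [if_neg hz, if_neg hz, mul_zero]
  · intro y z
    have e : ∀ x : Fin N, (datJ N v).Q (y, z) (x, (datJ N v).rev x) * (datJ N v).d x =
        (datJ N v).d y * (v ^ ((N : ℤ) - 1 - 2 * ((x : ℕ) : ℤ)) *
          (datJ N v).P (z, x) (Fin.rev y, x)) := by
      intro x
      have h := b3 y z x x
      show (datJ N v).Q (y, z) (x, Fin.rev x) * (datJ N v).d x = _
      rw [hdr x, mul_comm, mul_assoc, ← h]
      ring
    rw [Finset.sum_congr rfl fun x _ => e x, ← Finset.mul_sum, pP]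
    show _ = if z = Fin.rev y then (datJ N v).k' * (datJ N v).d y else 0
    by_cases hz : z = Fin.rev y
    · rw [if_pos hz, if_pos hz, mul_comm]
    · rw [if_neg hz, if_neg hz, mul_zero]

end Pool.Agent.N364.VV
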